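import Pool.Agent.W360.MQ.Stm

/-! The operator norm and the determinant of a real `2 × 2` matrix. -/

set_option autoImplicit false

namespace Pool.Agent.W74.MQ.OPN

open Pool.Agent.W360.MQ
open scoped Matrix.Norms.L2Operator ComplexConjugate

/-- the complex number of a vector -/
noncomputable def cz (v : EuclideanSpace ℝ (Fin 2)) : ℂ := (v 0 : ℂ) + (v 1 : ℂ) * Complex.I

lemma norm_cz (v : EuclideanSpace ℝ (Fin 2)) : ‖cz v‖ = ‖v‖ := by
  have h1 : ‖cz v‖ ^ 2 = ‖v‖ ^ 2 := by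
    rw [EuclideanSpace.norm_sq_eq, Fin.sum_univ_two, Complex.sq_norm, cz, Complex.normSq_add_mul_I,
      Real.norm_eq_abs, Real.norm_eq_abs, sq_abs, sq_abs]
  exact (pow_left_inj₀ (norm_nonneg _) (norm_nonneg _) two_ne_zero).1 h1

lemma cz_mul (A : Matrix (Fin 2) (Fin 2) ℝ) (v : EuclideanSpace ℝ (Fin 2)) :
    cz (Matrix.toEuclideanCLM (n := Fin 2) (𝕜 := ℝ) A v) =
      (cab A).1 * cz v + (cab A).2 * conj (cz v) := by
  have e0 : (Matrix.toEuclideanCLM (n := Fin 2) (𝕜 := ℝ) A v) 0 = A 0 0 * v 0 + A 0 1 * v 1 := by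
    show (A.mulVec v.ofLp) 0 = _
    simp [Matrix.mulVec, dotProduct, Fin.sum_univ_two]
  have e1 : (Matrix.toEuclideanCLM (n := Fin 2) (𝕜 := ℝ) A v) 1 = A 1 0 * v 0 + A 1 1 * v 1 := by
    show (A.mulVec v.ofLp) 1 = _
    simp [Matrix.mulVec, dotProduct, Fin.sum_univ_two]
  unfold cz cab
  rw [e0, e1]
  simp only [map_add, map_mul, Complex.conj_ofReal, Complex.conj_I]
  push_cast
  linear_combination (A 0 1 : ℂ) * (v 1 : ℂ) * Complex.I_sq

/-- the extremal direction -/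
lemma exists_dir (a b : ℂ) : ∃ z : ℂ, ‖z‖ = 1 ∧ ‖a * z + b * conj z‖ = ‖a‖ + ‖b‖ := by
  by_cases ha : a = 0
  · exact ⟨1, by simp, by simp [ha]⟩
  by_cases hb : b = 0
  · exact ⟨1, by simp, by simp [hb]⟩
  have ha' : (0 : ℝ) < ‖a‖ := norm_pos_iff.2 ha
  have hb' : (0 : ℝ) < ‖b‖ := norm_pos_iff.2 hb
  obtain ⟨z, hz⟩ := IsAlgClosed.exists_pow_nat_eq ((b / (‖b‖ : ℂ)) * (conj a / (‖a‖ : ℂ)))
    (n := 2) two_pos
  have hn : ‖z‖ = 1 := by
    have h1 : ‖z‖ ^ 2 = 1 := by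
      rw [← norm_pow, hz, norm_mul, norm_div, norm_div, Complex.norm_real, Complex.norm_real,
        norm_norm, norm_norm, div_self hb'.ne', one_mul, RCLike.norm_conj, div_self ha'.ne']
    exact (pow_eq_one_iff_of_nonneg (norm_nonneg _) two_ne_zero).1 h1
  have hzz : conj z * z = 1 := by
    rw [mul_comm, Complex.mul_conj, Complex.normSq_eq_norm_sq, hn]
    norm_num
  refine ⟨z, hn, ?_⟩
  have h2 : (a * z + b * conj z) * z = b * ((‖a‖ + ‖b‖ : ℝ) / ‖b‖ : ℝ) := by
    have e : (a * z + b * conj z) * z = a * z ^ 2 + b * (conj z * z) := by ring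
    rw [e, hzz, hz]
    have haa : a * conj a = ((‖a‖ : ℝ) : ℂ) ^ 2 := by
      rw [Complex.mul_conj, Complex.normSq_eq_norm_sq]
      push_cast
      ring
    have hac : ((‖a‖ : ℝ) : ℂ) ≠ 0 := Complex.ofReal_ne_zero.2 ha'.ne'
    have hbc : ((‖b‖ : ℝ) : ℂ) ≠ 0 := Complex.ofReal_ne_zero.2 hb'.ne'
    push_cast
    field_simp
    linear_combination haa
  have h3 : ‖a * z + b * conj z‖ = ‖(a * z + b * conj z) * z‖ := by
    rw [norm_mul, hn, mul_one]
  rw [h3, h2, norm_mul, Complex.norm_real, Real.norm_eq_abs, abs_of_pos (by positivity)]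
  field_simp

theorem main : S_OPN := by
  intro A
  refine ⟨?_, ?_⟩
  · rw [← Matrix.l2_opNorm_toEuclideanCLM]
    refine le_antisymm ?_ ?_
    · refine ContinuousLinearMap.opNorm_le_bound _ (by positivity) fun v => ?_
      rw [← norm_cz, cz_mul, ← norm_cz v]
      refine (norm_add_le _ _).trans ?_
      rw [norm_mul, norm_mul, RCLike.norm_conj]
      exact (add_mul _ _ _).ge
    · obtain ⟨z, hz, hz2⟩ := exists_dir (cab A).1 (cab A).2
      set v : EuclideanSpace ℝ (Fin 2) := WithLp.toLp 2 ![z.re, z.im] with hv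
      have hcz : cz v = z := by
        unfold cz
        simp [hv]
      have h1 := (Matrix.toEuclideanCLM (n := Fin 2) (𝕜 := ℝ) A).le_opNorm v
      rw [← norm_cz, ← norm_cz v, cz_mul, hcz, hz, hz2, mul_one] at h1
      exact h1
  · rw [Matrix.det_fin_two, Complex.sq_norm, Complex.sq_norm]
    unfold cab
    simp only [Complex.normSq_div]
    rw [Complex.normSq_add_mul_I, Complex.normSq_add_mul_I]
    norm_num
    ring

end Pool.Agent.W74.MQ.OPN
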